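import Pool.Agent.R527.FZ.Defs

namespace Pool.Agent.R527.FZ

open MvPolynomial

theorem C_mem (N : ℕ) {c : ℝ} (hc : 0 ≤ c) : (C c : Rg) ∈ Cone N :=
  Subsemiring.subset_closure (Or.inl (Or.inl ⟨c, hc, rfl⟩))

theorem X_mem (N i : ℕ) : (X i : Rg) ∈ Cone N :=
  Subsemiring.subset_closure (Or.inl (Or.inr ⟨i, rfl⟩))

theorem neg_X_mem {N i : ℕ} (h : N < i) : -(X i : Rg) ∈ Cone N :=
  Subsemiring.subset_closure (Or.inr ⟨i, h, rfl⟩)

theorem cone_anti {N M : ℕ} (h : N ≤ M) : Cone M ≤ Cone N := by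
  refine Subsemiring.closure_le.2 ?_
  rintro p ((⟨c, hc, rfl⟩ | ⟨i, rfl⟩) | ⟨i, hi, rfl⟩)
  · exact C_mem N hc
  · exact X_mem N i
  · exact neg_X_mem (lt_of_le_of_lt h hi)

theorem smul_mem {N : ℕ} {c : ℝ} (hc : 0 ≤ c) {p : Rg} (hp : p ∈ Cone N) : c • p ∈ Cone N := by
  rw [MvPolynomial.smul_eq_C_mul]
  exact (Cone N).mul_mem (C_mem N hc) hp

theorem cone_div {N : ℕ} (n : ℕ) (p : Rg) (h : ((n : Rg) + 1) * p ∈ Cone N) : p ∈ Cone N := by
  have h1 : p = ((n : ℝ) + 1)⁻¹ • (((n : Rg) + 1) * p) := by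
    have h2 : ((n : Rg) + 1) = C ((n : ℝ) + 1) := by
      simp
    have h3 : ((n : ℝ) + 1) ≠ 0 := by positivity
    rw [h2, MvPolynomial.smul_eq_C_mul, ← mul_assoc, ← C_mul, inv_mul_cancel₀ h3, C_1, one_mul]
  rw [h1]
  exact smul_mem (by positivity) h

theorem g_mem (N j : ℕ) : g j ∈ Cone N :=
  (Cone N).sum_mem fun i _ => X_mem N i

theorem U_X (i : ℕ) : U (X i) = g i * (X i + X (i - 1)) := by
  unfold U
  rw [mkDerivation_X]

theorem U_mem {N : ℕ} {p : Rg} (hp : p ∈ Cone (N + 1)) : U p ∈ Cone N := by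
  have hle : Cone (N + 1) ≤ Cone N := cone_anti (Nat.le_succ N)
  refine Subsemiring.closure_induction (p := fun p _ => U p ∈ Cone N) ?_ ?_ ?_ ?_ ?_ hp
  · rintro p ((⟨c, hc, rfl⟩ | ⟨i, rfl⟩) | ⟨i, hi, rfl⟩)
    · have h0 : U (C c) = 0 := Derivation.map_algebraMap U c
      rw [h0]
      exact (Cone N).zero_mem
    · rw [U_X]
      exact (Cone N).mul_mem (g_mem N i) ((Cone N).add_mem (X_mem N i) (X_mem N (i - 1)))
    · have h1 : U (-X i) = g i * (-X i + -X (i - 1)) := by
        rw [map_neg, U_X]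
        ring
      rw [h1]
      exact (Cone N).mul_mem (g_mem N i) ((Cone N).add_mem (neg_X_mem (by omega))
        (neg_X_mem (by omega)))
  · rw [map_zero]
    exact (Cone N).zero_mem
  · have h1 : U 1 = 0 := U.map_one_eq_zero
    rw [h1]
    exact (Cone N).zero_mem
  · intro x y _ _ hx hy
    rw [map_add]
    exact (Cone N).add_mem hx hy
  · intro x y hx' hy' hx hy
    rw [Derivation.leibniz]
    exact (Cone N).add_mem ((Cone N).mul_mem (hle hx') hy) ((Cone N).mul_mem (hle hy') hx)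

theorem D0_mem {N : ℕ} {p : Rg} (hp : p ∈ Cone (N + 1)) : D0 p ∈ Cone N := by
  have hle : Cone (N + 1) ≤ Cone N := cone_anti (Nat.le_succ N)
  have hX : ∀ i, D0 (X i : Rg) = if i = 0 then 1 else 0 := by
    intro i
    unfold D0
    rw [pderiv_X]
    by_cases h : i = 0
    · subst h; simp
    · rw [if_neg h, Pi.single_eq_of_ne h]
  refine Subsemiring.closure_induction (p := fun p _ => D0 p ∈ Cone N) ?_ ?_ ?_ ?_ ?_ hp
  · rintro p ((⟨c, hc, rfl⟩ | ⟨i, rfl⟩) | ⟨i, hi, rfl⟩)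
    · have h0 : D0 (C c) = 0 := by
        unfold D0
        exact pderiv_C
      rw [h0]
      exact (Cone N).zero_mem
    · rw [hX]
      split_ifs
      · exact (Cone N).one_mem
      · exact (Cone N).zero_mem
    · rw [map_neg, hX, if_neg (by omega), neg_zero]
      exact (Cone N).zero_mem
  · rw [map_zero]
    exact (Cone N).zero_mem
  · have h1 : D0 1 = 0 := D0.map_one_eq_zero
    rw [h1]
    exact (Cone N).zero_mem
  · intro x y _ _ hx hy
    rw [map_add]
    exact (Cone N).add_mem hx hy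
  · intro x y hx' hy' hx hy
    rw [Derivation.leibniz]
    exact (Cone N).add_mem ((Cone N).mul_mem (hle hx') hy) ((Cone N).mul_mem (hle hy') hx)

theorem ev_nonneg {p : Rg} (hp : p ∈ Cone 0) : 0 ≤ ev p := by
  refine Subsemiring.closure_induction (p := fun p _ => 0 ≤ ev p) ?_ ?_ ?_ ?_ ?_ hp
  · rintro p ((⟨c, hc, rfl⟩ | ⟨i, rfl⟩) | ⟨i, hi, rfl⟩)
    · simpa [ev] using hc
    · simp only [ev, eval_X]
      split_ifs <;> norm_num
    · simp only [ev, map_neg, eval_X]
      rw [if_neg (by omega)]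
      norm_num
  · simp [ev]
  · simp [ev]
  · intro x y _ _ hx hy
    have : ev (x + y) = ev x + ev y := by simp [ev]
    rw [this]
    exact add_nonneg hx hy
  · intro x y _ _ hx hy
    have : ev (x * y) = ev x * ev y := by simp [ev]
    rw [this]
    exact mul_nonneg hx hy

theorem run_mem (v : List Bool) (S : ℕ) {p : Rg} (hp : p ∈ Cone v.length) :
    run v S p ∈ Cone 0 := by
  induction v generalizing S p with
  | nil => simpa [run] using hp
  | cons a v ih =>
    have hS : (0 : ℝ) ≤ (S : ℝ)⁻¹ := by positivity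
    rw [List.length_cons] at hp
    cases a with
    | true =>
      show run v (S + 1) ((S : ℝ)⁻¹ • U p) ∈ Cone 0
      exact ih _ (smul_mem hS (U_mem hp))
    | false =>
      show run v (S - 1) ((S : ℝ)⁻¹ • D0 p) ∈ Cone 0
      exact ih _ (smul_mem hS (D0_mem hp))

theorem g_succ' (j : ℕ) : g (j + 1) = g j + X j := by
  unfold g
  rw [Finset.sum_range_succ]

theorem U_g (j : ℕ) : U (g (j + 1)) = g (j + 1) * g j := by
  induction j with
  | zero =>
    have h0 : g 0 = 0 := by simp [g]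
    rw [g_succ', h0, zero_add, U_X, h0]
    ring
  | succ j ih =>
    rw [g_succ' (j + 1), map_add, ih, U_X, Nat.add_sub_cancel, g_succ' j]
    ring

theorem D0_g (j : ℕ) : D0 (g j) = if j = 0 then 0 else 1 := by
  have hX : ∀ i, D0 (X i : Rg) = if i = 0 then 1 else 0 := by
    intro i
    unfold D0
    rw [pderiv_X]
    by_cases h : i = 0
    · subst h; simp
    · rw [if_neg h, Pi.single_eq_of_ne h]
  unfold g
  rw [map_sum]
  simp only [hX]
  by_cases h : j = 0
  · subst h; simp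
  · rw [if_neg h, Finset.sum_ite_eq' (Finset.range j) 0]
    rw [if_pos (Finset.mem_range.2 (Nat.pos_of_ne_zero h))]

end Pool.Agent.R527.FZ
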