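import Mathlib

/-!
Random trees built with uniform freezing: definitions.
-/

namespace Pool.Agent.R527.FZ

open MvPolynomial

/-- A finite rooted tree with active and frozen vertices. The vertices are `0, 1, ..., size - 1`,
the root is `0`, the parent of the vertex `v` with `0 < v < size` is `parent v`, and `active` is
the set of active vertices (all the other vertices are frozen). -/
structure FTree where
  /-- the number of vertices -/
  size : ℕ
  /-- the parent map -/
  parent : ℕ → ℕ
  /-- the set of active vertices -/
  active : Finset ℕ

/-- The depth of the vertex `v`: the number of steps needed to reach the root `0` from `v` when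
one moves from a vertex to its parent. -/
noncomputable def FTree.depth (T : FTree) (v : ℕ) : ℕ := sInf {k : ℕ | T.parent^[k] v = 0}

/-- The height of the tree: the largest depth of a vertex. -/
noncomputable def FTree.height (T : FTree) : ℕ := (Finset.range T.size).sup T.depth

/-- The tree reduced to one active root. -/
def FTree.single : FTree := ⟨1, fun _ => 0, {0}⟩

/-- One step applied at the active vertex `v`: if `x = true` (that is `+1`) attach a new active
child to `v` (the new vertex is `size`), if `x = false` (that is `-1`) freeze `v`. -/
def FTree.step (x : Bool) (T : FTree) (v : ℕ) : FTree :=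
  if x then ⟨T.size + 1, Function.update T.parent T.size v, insert T.size T.active⟩
  else ⟨T.size, T.parent, T.active.erase v⟩

open Classical in
/-- The law of the random tree obtained from `T` by the successive steps `x`: at each step an
active vertex is chosen uniformly at random, independently of the previous choices. (If there is
no active vertex left, the process stops.) -/
noncomputable def FTree.evolve : List Bool → FTree → PMF FTree
  | [], T => PMF.pure T
  | x :: xs, T =>
      if h : T.active.Nonempty then
        (PMF.uniformOfFinset T.active h).bind fun v => FTree.evolve xs (T.step x v)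
      else PMF.pure T

/-- The law of `𝒯(x)`. -/
noncomputable def law (x : List Bool) : PMF FTree := FTree.evolve x FTree.single

/-- The expectation of `f (𝒯(x))`. -/
noncomputable def expect (x : List Bool) (f : FTree → ℝ) : ℝ := ∑' T, (law x T).toReal * f T

/-- The partial sums `S_j(x) = 1 + x_1 + ... + x_j`. -/
def partialSum (x : List Bool) (j : ℕ) : ℤ := 1 + ((x.take j).map fun b => if b then (1 : ℤ) else -1).sum

/-- The choice sequence `x` is admissible: `S_j(x) > 0` for `1 ≤ j ≤ m - 1`. -/
def Admissible (x : List Bool) : Prop := ∀ j, 1 ≤ j → j < x.length → 0 < partialSum x j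

/-! ### Polynomials -/

/-- The polynomial ring `ℝ[z_0, z_1, ...]`. -/
abbrev Rg := MvPolynomial ℕ ℝ

/-- `g j = z_0 + ... + z_{j-1}`. -/
noncomputable def g (j : ℕ) : Rg := ∑ i ∈ Finset.range j, X i

/-- The derivation with `U z_c = g c * (z_c + z_{c-1})`; it satisfies `U (g (j+1)) = g (j+1) * g j`. -/
noncomputable def U : Derivation ℝ Rg Rg := mkDerivation ℝ fun c => g c * (X c + X (c - 1))

/-- `∂ / ∂ z_0`. -/
noncomputable def D0 : Derivation ℝ Rg Rg := pderiv 0

/-- The cone: the subsemiring generated by the nonnegative constants, all variables and the
negatives of the variables with index larger than `N`. -/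
noncomputable def Cone (N : ℕ) : Subsemiring Rg :=
  Subsemiring.closure ({p | ∃ c : ℝ, 0 ≤ c ∧ p = C c} ∪ {p | ∃ i, p = X i} ∪
    {p | ∃ i, N < i ∧ p = - X i})

/-- Evaluation at `(1, 0, 0, ...)`. -/
noncomputable def ev (p : Rg) : ℝ := MvPolynomial.eval (fun i => if i = 0 then (1 : ℝ) else 0) p

/-- The operator corresponding to a word, starting with `S` active vertices. -/
noncomputable def run : List Bool → ℕ → Rg → Rg
  | [], _, F => F
  | true :: xs, S, F => run xs (S + 1) ((S : ℝ)⁻¹ • U F)
  | false :: xs, S, F => run xs (S - 1) ((S : ℝ)⁻¹ • D0 F)

/-- Validity of a word started with `S` active vertices: there is always an active vertex when a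
step is made. -/
def Valid : List Bool → ℕ → Prop
  | [], _ => True
  | true :: xs, S => 0 < S ∧ Valid xs (S + 1)
  | false :: xs, S => 0 < S ∧ Valid xs (S - 1)

end Pool.Agent.R527.FZ
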