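import Mathlib

namespace Pool.Agent.R527.FZ

open PowerSeries

namespace PosAux

variable {R : Type*} [CommRing R]

/-- coefficients up to `n` in the cone -/
def PU (Cn : Subsemiring R) (n : ℕ) (f : PowerSeries R) : Prop := ∀ i ≤ n, coeff i f ∈ Cn

/-- all coefficients in the cone -/
def PA (Cn : Subsemiring R) (f : PowerSeries R) : Prop := ∀ i, coeff i f ∈ Cn

variable {Cn : Subsemiring R}

theorem PA.pu {f : PowerSeries R} (h : PA Cn f) (n : ℕ) : PU Cn n f := fun i _ => h i

theorem PU.add {n : ℕ} {f h : PowerSeries R} (hf : PU Cn n f) (hh : PU Cn n h) :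
    PU Cn n (f + h) := by
  intro i hi
  rw [map_add]
  exact add_mem (hf i hi) (hh i hi)

theorem PA.add {f h : PowerSeries R} (hf : PA Cn f) (hh : PA Cn h) : PA Cn (f + h) := by
  intro i
  rw [map_add]
  exact add_mem (hf i) (hh i)

theorem PU.mul {n : ℕ} {f h : PowerSeries R} (hf : PU Cn n f) (hh : PU Cn n h) :
    PU Cn n (f * h) := by
  intro i hi
  rw [coeff_mul]
  apply sum_mem
  intro p hp
  rw [Finset.HasAntidiagonal.mem_antidiagonal] at hp
  exact mul_mem (hf _ (by omega)) (hh _ (by omega))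

theorem PA.mul {f h : PowerSeries R} (hf : PA Cn f) (hh : PA Cn h) : PA Cn (f * h) := by
  intro i
  exact (hf.pu i).mul (hh.pu i) i le_rfl

theorem PU.sum {n : ℕ} {s : Finset ℕ} {f : ℕ → PowerSeries R} (hf : ∀ m ∈ s, PU Cn n (f m)) :
    PU Cn n (∑ m ∈ s, f m) := by
  intro i hi
  rw [map_sum]
  exact sum_mem (fun m hm => hf m hm i hi)

theorem PA.sum {s : Finset ℕ} {f : ℕ → PowerSeries R} (hf : ∀ m ∈ s, PA Cn (f m)) :
    PA Cn (∑ m ∈ s, f m) := by
  intro i
  exact PU.sum (fun m hm => (hf m hm).pu i) i le_rfl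

theorem pa_C {a : R} (ha : a ∈ Cn) : PA Cn (C a) := by
  intro i
  rw [coeff_C]
  split_ifs
  · exact ha
  · exact zero_mem _

theorem pa_zero : PA Cn (0 : PowerSeries R) := by
  intro i
  rw [map_zero]
  exact zero_mem _

theorem pa_one : PA Cn (1 : PowerSeries R) := by
  have := pa_C (Cn := Cn) (one_mem Cn)
  rwa [map_one] at this

theorem pa_X : PA Cn (X : PowerSeries R) := by
  intro i
  rw [coeff_X]
  split_ifs
  · exact one_mem _
  · exact zero_mem _

theorem pa_two : PA Cn (2 : PowerSeries R) := by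
  have := (pa_one (Cn := Cn)).add pa_one
  rwa [one_add_one_eq_two] at this

/-- positivity of the solution of a linear differential equation -/
theorem ode (hdiv : ∀ (n : ℕ) (a : R), ((n : R) + 1) * a ∈ Cn → a ∈ Cn)
    {Y A B : PowerSeries R} (hA : PA Cn A) (hB : PA Cn B) (h0 : coeff 0 Y ∈ Cn)
    (hY : derivative R Y = A * Y + B) : PA Cn Y := by
  intro i
  induction i using Nat.strong_induction_on with
  | _ i ih =>
    rcases i with _ | n
    · exact h0
    · apply hdiv n
      have e : ((n : R) + 1) * coeff (n + 1) Y = coeff n (derivative R Y) := by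
        rw [coeff_derivative, mul_comm]
      rw [e, hY, map_add]
      refine add_mem ?_ (hB n)
      have hYn : PU Cn n Y := fun j hj => ih j (by omega)
      exact (hA.pu n).mul hYn n le_rfl

/-- Abel summation -/
theorem abel {n M c0 : ℕ} {a b : ℕ → PowerSeries R} (ha : ∀ m, PA Cn (a m))
    (hd : ∀ m, PA Cn (a (m + 1) - a m))
    (hb : ∀ c, c0 ≤ c → PU Cn n (∑ m ∈ Finset.Ico c M, b m)) (c : ℕ) (hc : c0 ≤ c) :
    PU Cn n (∑ m ∈ Finset.Ico c M, a m * b m) := by
  have key : ∀ d : ℕ, ∀ c, c0 ≤ c → M ≤ c + d →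
      PU Cn n (∑ m ∈ Finset.Ico c M, a m * b m - a c * ∑ m ∈ Finset.Ico c M, b m) := by
    intro d
    induction d with
    | zero =>
      intro c _ hM
      rw [Finset.Ico_eq_empty_of_le (by omega)]
      simp only [Finset.sum_empty, mul_zero, sub_zero]
      exact pa_zero.pu n
    | succ d ih =>
      intro c hc hM
      rcases Nat.lt_or_ge c M with hlt | hge
      · have h1 := ih (c + 1) (by omega) (by omega)
        have h2 := ((hd c).pu n).mul (hb (c + 1) (by omega))
        have e : ∑ m ∈ Finset.Ico c M, a m * b m - a c * ∑ m ∈ Finset.Ico c M, b m =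
            (∑ m ∈ Finset.Ico (c + 1) M, a m * b m -
              a (c + 1) * ∑ m ∈ Finset.Ico (c + 1) M, b m) +
            (a (c + 1) - a c) * ∑ m ∈ Finset.Ico (c + 1) M, b m := by
          rw [Finset.sum_eq_sum_Ico_succ_bot hlt (fun m => a m * b m),
            Finset.sum_eq_sum_Ico_succ_bot hlt b]
          ring
        rw [e]
        exact h1.add h2
      · rw [Finset.Ico_eq_empty_of_le hge]
        simp only [Finset.sum_empty, mul_zero, sub_zero]
        exact pa_zero.pu n
  have h1 := key M c hc (by omega)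
  have h2 := ((ha c).pu n).mul (hb c hc)
  have := h1.add h2
  rwa [sub_add_cancel] at this

/-- telescoping -/
theorem tele (u : ℕ → PowerSeries R) (c : ℕ) : ∀ d : ℕ,
    ∑ m ∈ Finset.Ico c (c + d), (u m - u (m + 1)) = u c - u (c + d)
  | 0 => by simp
  | d + 1 => by
      rw [← add_assoc, Finset.sum_Ico_succ_top (by omega), tele u c d]
      ring

end PosAux

open PosAux

theorem main_pos {R : Type*} [CommRing R] (Cn : Subsemiring R)
    (hdiv : ∀ (n : ℕ) (a : R), ((n : R) + 1) * a ∈ Cn → a ∈ Cn)
    (N : ℕ) (x : ℕ → R) (hx : ∀ i, x i ∈ Cn) (hx' : ∀ i, N < i → -x i ∈ Cn)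
    (g : ℕ → R) (hg : ∀ j, g j = ∑ i ∈ Finset.range j, x i)
    (e P Q : ℕ → PowerSeries R)
    (he0 : e 0 = 1) (he1 : ∀ m, coeff 0 (e m) = 1)
    (he : ∀ m, derivative R (e (m + 1)) = C (g (m + 1)) * e m * e (m + 1))
    (hP0 : P 0 = 0) (hP1 : ∀ m, coeff 0 (P m) = 0)
    (hP : ∀ m, derivative R (P (m + 1)) =
      C (g (m + 2) + g (m + 1)) * e (m + 1) + C (g (m + 2)) * e (m + 1) * P m)
    (hQ0 : Q 0 = 1)
    (hQ : ∀ m, derivative R (X * Q (m + 1)) =
      e (m + 1) + X * C (g (m + 2)) * e (m + 1) * Q m)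
    (n M c : ℕ) (hM : N + n ≤ M) :
    ∑ m ∈ Finset.Ico c (M + 1), coeff n (P m - 2 * Q m + 2) ∈ Cn := by
  -- the elements `g j`
  have hgs : ∀ j, g (j + 1) = g j + x j := by
    intro j
    rw [hg, hg, Finset.sum_range_succ]
  have hgC : ∀ j, g j ∈ Cn := by
    intro j
    rw [hg]
    exact sum_mem (fun i _ => hx i)
  have hg0 : g 0 = 0 := by rw [hg]; simp
  have hg1 : g 1 = x 0 := by rw [hgs, hg0, zero_add]
  have hgsC : ∀ j, (C (g (j + 1)) : PowerSeries R) = C (g j) + C (x j) := by
    intro j
    rw [hgs, map_add]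
  have pg : ∀ j, PA Cn (C (g j)) := fun j => pa_C (hgC j)
  have px : ∀ j, PA Cn (C (x j)) := fun j => pa_C (hx j)
  -- the series `e m`
  have pe : ∀ m, PA Cn (e m) := by
    intro m
    induction m with
    | zero => rw [he0]; exact pa_one
    | succ m ih =>
      refine ode hdiv ((pg (m + 1)).mul ih) pa_zero ?_ (by rw [he, add_zero])
      rw [he1]
      exact one_mem _
  have pde : ∀ m, PA Cn (e (m + 1) - e m) := by
    intro m
    induction m with
    | zero =>
      refine ode hdiv (A := 0) (B := C (g 1) * e 0 * e 1) pa_zero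
        (((pg 1).mul (pe 0)).mul (pe 1)) ?_ ?_
      · rw [map_sub, he1, he1, sub_self]
        exact zero_mem _
      · rw [map_sub, he 0, he0, Derivation.map_one_eq_zero]
        ring
    | succ m ih =>
      refine ode hdiv (A := C (g (m + 2)) * e (m + 1))
        (B := (C (g (m + 2)) * (e (m + 1) - e m) + C (x (m + 1)) * e m) * e (m + 1))
        ((pg _).mul (pe _)) ((((pg _).mul ih).add ((px _).mul (pe _))).mul (pe _)) ?_ ?_
      · rw [map_sub, he1, he1, sub_self]
        exact zero_mem _
      · rw [map_sub, he (m + 1), he m, hgsC (m + 1)]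
        ring
  have pe1 : ∀ m, PA Cn (e m - 1) := by
    intro m
    induction m with
    | zero => rw [he0, sub_self]; exact pa_zero
    | succ m ih =>
      have := (pde m).add ih
      rwa [sub_add_sub_cancel] at this
  -- the series `K m`
  set K : ℕ → PowerSeries R := fun m => P m - 2 * e m + 2 - X * C (x m) * e m with hK
  set u : ℕ → PowerSeries R := fun m => X * C (g (m + 1)) * C (x m) * e m * e (m + 1) with hu
  set w : ℕ → PowerSeries R := fun m => C (x (m + 1)) * e (m + 1) *
    (2 * (e m - 1) + X * (C (g m) * ((e (m + 2) - e (m + 1)) + (e (m + 1) - e m)) +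
      (C (x m) + C (x (m + 1))) * e (m + 2))) with hw
  have pw : ∀ m, PA Cn (w m) := by
    intro m
    exact ((px _).mul (pe _)).mul ((pa_two.mul (pe1 _)).add (pa_X.mul
      (((pg _).mul ((pde _).add (pde _))).add (((px _).add (px _)).mul (pe _)))))
  have pu : ∀ m, PA Cn (u m) := fun m =>
    (((pa_X.mul (pg _)).mul (px _)).mul (pe _)).mul (pe _)
  have pnu : ∀ m, N < m → PA Cn (- u m) := by
    intro m hm
    have h : PA Cn (C (-x m)) := pa_C (hx' m hm)
    have h2 := (((pa_X.mul (pg (m + 1))).mul h).mul (pe m)).mul (pe (m + 1))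
    have e2 : X * C (g (m + 1)) * C (-x m) * e m * e (m + 1) = - u m := by
      rw [hu, map_neg]
      ring
    rwa [e2] at h2
  have dK : ∀ m, derivative R (K (m + 1)) =
      C (g (m + 2)) * e (m + 1) * K m + (u m - u (m + 1)) + w m := by
    intro m
    have h2 : derivative R (2 : PowerSeries R) = 0 := by
      have : (2 : PowerSeries R) = C (2 : R) := by rw [map_ofNat]
      rw [this, derivative_C]
    simp only [hK, hu, hw]
    rw [map_sub, map_add, map_sub, Derivation.leibniz, Derivation.leibniz, Derivation.leibniz,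
      derivative_X, derivative_C, h2, he m, hP m]
    simp only [smul_eq_mul, map_add]
    rw [hgsC (m + 1), hgsC m]
    ring
  have K0 : K 0 = - (X * C (x 0)) := by
    simp only [hK]
    rw [hP0, he0]
    ring
  have hK1 : PA Cn (derivative R (K 1) + u 1) := by
    have e1 : derivative R (K 1) + u 1 =
        X * C (x 1) * e 1 * (C (g 2) * (e 2 - 1) + C (x 1)) := by
      rw [dK 0, K0]
      simp only [hu, hw]
      rw [hgsC 1, hgsC 0, hg0, map_zero, he0]
      ring
    rw [e1]
    exact ((pa_X.mul (px _)).mul (pe _)).mul (((pg _).mul (pe1 _)).add (px _))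
  have cK : ∀ m, coeff 0 (K m) = 0 := by
    intro m
    simp only [hK]
    rw [map_sub, map_add, map_sub, hP1, mul_assoc, coeff_zero_X_mul]
    have h2 : (2 : PowerSeries R) = C (2 : R) := by rw [map_ofNat]
    rw [h2, coeff_C_mul, he1, coeff_zero_C]
    ring
  -- the coefficients of the Abel sums
  set a : ℕ → PowerSeries R := fun m => C (g (m + 2)) * e (m + 1) with ha
  have pa : ∀ m, PA Cn (a m) := fun m => (pg _).mul (pe _)
  have pda : ∀ m, PA Cn (a (m + 1) - a m) := by
    intro m
    have e1 : a (m + 1) - a m = C (g (m + 2)) * (e (m + 2) - e (m + 1)) +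
        C (x (m + 2)) * e (m + 2) := by
      simp only [ha]
      rw [hgsC (m + 2)]
      ring
    rw [e1]
    exact ((pg _).mul (pde _)).add ((px _).mul (pe _))
  -- claim A
  have hA : ∀ n M c : ℕ, N + n ≤ M → 1 ≤ c →
      coeff n (∑ m ∈ Finset.Ico c (M + 1), K m) ∈ Cn := by
    intro n
    induction n using Nat.strong_induction_on with
    | _ n ih =>
    intro M c hM hc
    rcases n with _ | n
    · rw [map_sum, Finset.sum_eq_zero (fun m _ => cK m)]
      exact zero_mem _
    obtain ⟨M, rfl⟩ : ∃ M', M = M' + 1 := ⟨M - 1, by omega⟩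
    obtain ⟨c, rfl⟩ : ∃ c', c = c' + 1 := ⟨c - 1, by omega⟩
    apply hdiv n
    have e1 : ((n : R) + 1) * coeff (n + 1) (∑ m ∈ Finset.Ico (c + 1) (M + 1 + 1), K m) =
        coeff n (∑ m ∈ Finset.Ico c (M + 1), derivative R (K (m + 1))) := by
      rw [← Finset.sum_Ico_add' K c (M + 1) 1, ← map_sum, coeff_derivative, mul_comm]
    rw [e1]
    -- partial sums with index at least one
    have tails : ∀ c, 1 ≤ c → PU Cn n (∑ m ∈ Finset.Ico c (M + 1), a m * K m) := by
      intro c hc
      refine abel pa pda (c0 := 1) (fun c' hc' => ?_) c hc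
      intro i hi
      exact ih i (by omega) M c' (by omega) hc'
    have hsplit : ∀ c, c ≤ M + 1 → ∑ m ∈ Finset.Ico c (M + 1), derivative R (K (m + 1)) =
        ∑ m ∈ Finset.Ico c (M + 1), a m * K m + (u c - u (M + 1)) +
          ∑ m ∈ Finset.Ico c (M + 1), w m := by
      intro c hc
      obtain ⟨d, hd⟩ : ∃ d, M + 1 = c + d := ⟨M + 1 - c, by omega⟩
      rw [hd, ← tele u c d, ← Finset.sum_add_distrib, ← Finset.sum_add_distrib]
      refine Finset.sum_congr rfl (fun m _ => ?_)
      rw [dK]
    have hpos1 : ∀ c, 1 ≤ c → c ≤ M + 1 → PU Cn n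
        (∑ m ∈ Finset.Ico c (M + 1), derivative R (K (m + 1)) - u c) := by
      intro c h1 h2
      have e2 : ∑ m ∈ Finset.Ico c (M + 1), derivative R (K (m + 1)) - u c =
          ∑ m ∈ Finset.Ico c (M + 1), a m * K m + - u (M + 1) +
          ∑ m ∈ Finset.Ico c (M + 1), w m := by
        rw [hsplit c h2]
        ring
      rw [e2]
      exact ((tails c h1).add ((pnu (M + 1) (by omega)).pu n)).add
        ((PA.sum (fun m _ => pw m)).pu n)
    rcases c with _ | c
    · rcases Nat.eq_zero_or_pos (M + 1) with h0 | hpos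
      · omega
      · rw [Finset.sum_eq_sum_Ico_succ_bot hpos]
        have h3 := (hK1.pu n).add (hpos1 1 le_rfl (by omega))
        have e3 : derivative R (K 1) + u 1 +
            (∑ m ∈ Finset.Ico 1 (M + 1), derivative R (K (m + 1)) - u 1) =
            derivative R (K (0 + 1)) +
              ∑ m ∈ Finset.Ico (0 + 1) (M + 1), derivative R (K (m + 1)) := by
          rw [zero_add]
          ring
        rw [e3] at h3
        exact h3 n le_rfl
    · rcases Nat.lt_or_ge (M + 1) (c + 1) with hlt | hge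
      · rw [Finset.Ico_eq_empty_of_le hlt.le, Finset.sum_empty, map_zero]
        exact zero_mem _
      · have h3 := (hpos1 (c + 1) (by omega) hge).add ((pu (c + 1)).pu n)
        rw [sub_add_cancel] at h3
        exact h3 n le_rfl
  -- the series `R m`
  set S : ℕ → PowerSeries R := fun m => P m - 2 * Q m + 2 with hS
  have S0 : S 0 = 0 := by
    simp only [hS]
    rw [hP0, hQ0]
    ring
  have h2C : (2 : PowerSeries R) = C (2 : R) := by rw [map_ofNat]
  have cQ : ∀ m, coeff 0 (Q m) = 1 := by
    intro m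
    rcases m with _ | m
    · rw [hQ0, coeff_zero_one]
    · have h := congrArg (coeff 0) (hQ m)
      rw [coeff_derivative, coeff_succ_X_mul, map_add, he1, mul_assoc, mul_assoc,
        coeff_zero_X_mul] at h
      simpa using h
  have cS : ∀ m, coeff 0 (S m) = 0 := by
    intro m
    simp only [hS]
    rw [map_add, map_sub, hP1, h2C, coeff_C_mul, cQ, coeff_zero_C]
    ring
  have dS : ∀ m, derivative R (X * S (m + 1)) = X * (a m * S m) + K (m + 1) := by
    intro m
    have h2 : derivative R (2 : PowerSeries R) = 0 := by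
      rw [h2C, derivative_C]
    have e1 : X * S (m + 1) = X * P (m + 1) - 2 * (X * Q (m + 1)) + 2 * X := by
      simp only [hS]
      ring
    rw [e1, map_add, map_sub, Derivation.leibniz _ X (P (m + 1)),
      Derivation.leibniz _ 2 (X * Q (m + 1)), Derivation.leibniz _ 2 X, derivative_X, h2, hP m, hQ m]
    simp only [hS, ha, hK, smul_eq_mul, map_add]
    rw [hgsC (m + 1)]
    ring
  -- claim B
  have hB : ∀ n M c : ℕ, N + n ≤ M → coeff n (∑ m ∈ Finset.Ico c (M + 1), S m) ∈ Cn := by
    intro n
    induction n using Nat.strong_induction_on with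
    | _ n ih =>
    intro M c hM
    have main1 : ∀ c, coeff n (∑ m ∈ Finset.Ico (c + 1) (M + 1), S m) ∈ Cn := by
      intro c
      rcases n with _ | n
      · rw [map_sum, Finset.sum_eq_zero (fun m _ => cS m)]
        exact zero_mem _
      obtain ⟨M, rfl⟩ : ∃ M', M = M' + 1 := ⟨M - 1, by omega⟩
      apply hdiv (n + 1)
      have e1 : (((n + 1 : ℕ) : R) + 1) *
          coeff (n + 1) (∑ m ∈ Finset.Ico (c + 1) (M + 1 + 1), S m) =
          coeff (n + 1) (∑ m ∈ Finset.Ico c (M + 1), derivative R (X * S (m + 1))) := by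
        rw [← Finset.sum_Ico_add' S c (M + 1) 1, ← map_sum, coeff_derivative, ← Finset.mul_sum,
          coeff_succ_X_mul, mul_comm]
      rw [e1]
      have e2 : ∑ m ∈ Finset.Ico c (M + 1), derivative R (X * S (m + 1)) =
          X * ∑ m ∈ Finset.Ico c (M + 1), a m * S m +
            ∑ m ∈ Finset.Ico (c + 1) (M + 1 + 1), K m := by
        rw [← Finset.sum_Ico_add' K c (M + 1) 1, Finset.mul_sum, ← Finset.sum_add_distrib]
        exact Finset.sum_congr rfl (fun m _ => dS m)
      rw [e2, map_add, coeff_succ_X_mul]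
      refine add_mem ?_ (hA (n + 1) (M + 1) (c + 1) hM (by omega))
      have h3 : PU Cn n (∑ m ∈ Finset.Ico c (M + 1), a m * S m) := by
        refine abel pa pda (c0 := 0) (fun c' _ => ?_) c (Nat.zero_le _)
        intro i hi
        exact ih i (by omega) M c' (by omega)
      exact h3 n le_rfl
    rcases c with _ | c
    · rw [Finset.sum_eq_sum_Ico_succ_bot (by omega), S0, zero_add]
      exact main1 0
    · exact main1 c
  have h := hB n M c hM
  rw [map_sum] at h
  exact h

end Pool.Agent.R527.FZ
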