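import Pool.Agent.R527.FZ.Tree1

namespace Pool.Agent.R527.FZ

open MvPolynomial

theorem ex_nonneg (f : FTree → ℝ) (hf : ∀ T', 0 ≤ f T') (xs : List Bool) (T : FTree) :
    0 ≤ ex f xs T := by
  induction xs generalizing T with
  | nil => exact hf T
  | cons x xs ih =>
    unfold ex
    exact mul_nonneg (by positivity) (Finset.sum_nonneg (fun v _ => ih _))

theorem valid_tail {T : FTree} (h : Good T) {x : Bool} {xs : List Bool}
    (hx : Valid (x :: xs) T.active.card) {v : ℕ} (hv : v ∈ T.active) :
    Valid xs (T.step x v).active.card := by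
  cases x with
  | true =>
    rw [card_step_true h hv]
    exact hx.2
  | false =>
    rw [card_step_false hv]
    exact hx.2

theorem valid_pos {x : Bool} {xs : List Bool} {S : ℕ} (hx : Valid (x :: xs) S) : 0 < S := by
  cases x with
  | true => exact hx.1
  | false => exact hx.1

open Classical in
theorem tsum_evolve_aux {T : FTree} (h : Good T) (xs : List Bool) (hx : Valid xs T.active.card)
    (f : FTree → ℝ) (hf : ∀ T', 0 ≤ f T') :
    ∑' T', FTree.evolve xs T T' * ENNReal.ofReal (f T') = ENNReal.ofReal (ex f xs T) := by
  induction xs generalizing T with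
  | nil =>
    rw [tsum_eq_single T]
    · simp [FTree.evolve, ex]
    · intro T' hT'
      simp [FTree.evolve, PMF.pure_apply, hT']
  | cons x xs ih =>
    have hcard : 0 < T.active.card := valid_pos hx
    have hne : T.active.Nonempty := Finset.card_pos.1 hcard
    unfold FTree.evolve
    rw [dif_pos hne]
    simp_rw [PMF.bind_apply, ← ENNReal.tsum_mul_right]
    rw [ENNReal.tsum_comm]
    simp_rw [mul_assoc, ENNReal.tsum_mul_left]
    rw [tsum_eq_sum (s := T.active)]
    · have e : ∀ v ∈ T.active, (PMF.uniformOfFinset T.active hne) v *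
          ∑' T', FTree.evolve xs (T.step x v) T' * ENNReal.ofReal (f T') =
          ENNReal.ofReal ((T.active.card : ℝ)⁻¹ * ex f xs (T.step x v)) := by
        intro v hv
        rw [ih (good_step h x hv) (valid_tail h hx hv), PMF.uniformOfFinset_apply_of_mem _ hv,
          ENNReal.ofReal_mul (by positivity), ENNReal.ofReal_inv_of_pos (by exact_mod_cast hcard),
          ENNReal.ofReal_natCast]
      rw [Finset.sum_congr rfl e]
      rw [← ENNReal.ofReal_sum_of_nonneg
        (fun v _ => mul_nonneg (by positivity) (ex_nonneg f hf _ _))]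
      rw [← Finset.mul_sum]
      rfl
    · intro v hv
      rw [PMF.uniformOfFinset_apply_of_notMem _ hv, zero_mul]

/-- law in terms of the recursion (nonnegative `f`) -/
theorem tsum_evolve {T : FTree} (h : Good T) (xs : List Bool) (hx : Valid xs T.active.card)
    (f : FTree → ℝ) (hf : ∀ T', 0 ≤ f T') :
    ∑' T', (FTree.evolve xs T T').toReal * f T' = ex f xs T := by
  have h1 := tsum_evolve_aux h xs hx f hf
  have h2 := congrArg ENNReal.toReal h1
  rw [ENNReal.toReal_ofReal (ex_nonneg f hf xs T), ENNReal.tsum_toReal_eq] at h2
  · rw [← h2]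
    apply tsum_congr
    intro T'
    rw [ENNReal.toReal_mul, ENNReal.toReal_ofReal (hf T')]
  · intro T'
    exact ENNReal.mul_ne_top (PMF.apply_ne_top _ _) ENNReal.ofReal_ne_top

theorem height_step_le {T : FTree} (h : Good T) (x : Bool) {v : ℕ} (hv : v ∈ T.active) :
    (T.step x v).height ≤ T.height + 1 := by
  cases x with
  | true =>
    rw [height_step_true h hv]
    have h1 : T.depth v ≤ T.height := Finset.le_sup (f := T.depth)
      (Finset.mem_range.2 (h.2.2.2 v hv))
    omega
  | false =>
    rw [height_step_false]
    omega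

theorem nat_sub_eq_sum (n c M : ℕ) (hM : n ≤ M) :
    ((n - c : ℕ) : ℝ) = ∑ m ∈ Finset.Ico c (M + 1), (1 - if n ≤ m then (1 : ℝ) else 0) := by
  have e1 : ∀ m ∈ Finset.Ico c (M + 1), (1 - if n ≤ m then (1 : ℝ) else 0) =
      if m < n then (1 : ℝ) else 0 := by
    intro m _
    by_cases hm : n ≤ m
    · rw [if_pos hm, if_neg (not_lt.2 hm)]
      simp
    · rw [if_neg hm, if_pos (not_le.1 hm)]
      simp
  rw [Finset.sum_congr rfl e1, Finset.sum_boole]
  have e2 : (Finset.Ico c (M + 1)).filter (fun m => m < n) = Finset.Ico c n := by
    ext m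
    simp only [Finset.mem_filter, Finset.mem_Ico]
    omega
  rw [e2, Nat.card_Ico]

/-- truncated expectation of the height -/
theorem ex_height {T : FTree} (h : Good T) (xs : List Bool) (hx : Valid xs T.active.card)
    (c M : ℕ) (hM : T.height + xs.length ≤ M) :
    ex (fun T' => ((T'.height - c : ℕ) : ℝ)) xs T =
      ∑ m ∈ Finset.Ico c (M + 1), (1 - ex (fun T' => if T'.height ≤ m then 1 else 0) xs T) := by
  induction xs generalizing T with
  | nil =>
    unfold ex
    apply nat_sub_eq_sum
    simpa using hM
  | cons x xs ih =>
    have hcard : (0 : ℝ) < T.active.card := by exact_mod_cast valid_pos hx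
    have e : ∀ v ∈ T.active, ex (fun T' => ((T'.height - c : ℕ) : ℝ)) xs (T.step x v) =
        ∑ m ∈ Finset.Ico c (M + 1),
          (1 - ex (fun T' => if T'.height ≤ m then 1 else 0) xs (T.step x v)) := by
      intro v hv
      apply ih (good_step h x hv) (valid_tail h hx hv)
      have := height_step_le h x hv
      simp only [List.length_cons] at hM
      omega
    have e2 : ex (fun T' => ((T'.height - c : ℕ) : ℝ)) (x :: xs) T =
        (T.active.card : ℝ)⁻¹ * ∑ v ∈ T.active,
          ex (fun T' => ((T'.height - c : ℕ) : ℝ)) xs (T.step x v) := rfl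
    rw [e2, Finset.sum_congr rfl e, Finset.sum_comm, Finset.mul_sum]
    apply Finset.sum_congr rfl
    intro m _
    have e3 : ex (fun T' => if T'.height ≤ m then (1 : ℝ) else 0) (x :: xs) T =
        (T.active.card : ℝ)⁻¹ * ∑ v ∈ T.active,
          ex (fun T' => if T'.height ≤ m then (1 : ℝ) else 0) xs (T.step x v) := rfl
    rw [e3, Finset.sum_sub_distrib, Finset.sum_const, nsmul_eq_mul, mul_one, mul_sub,
      inv_mul_cancel₀ hcard.ne']

/-- an additional final `-1` does not change the height -/
theorem ex_append_false {T : FTree} (h : Good T) (xs : List Bool)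
    (hx : Valid (xs ++ [false]) T.active.card) (f : ℕ → ℝ) :
    ex (fun T' => f T'.height) (xs ++ [false]) T = ex (fun T' => f T'.height) xs T := by
  induction xs generalizing T with
  | nil =>
    have hcard : (0 : ℝ) < T.active.card := by exact_mod_cast valid_pos hx
    have e : ex (fun T' => f T'.height) ([] ++ [false]) T =
        (T.active.card : ℝ)⁻¹ * ∑ v ∈ T.active, f (T.step false v).height := rfl
    rw [e]
    simp_rw [height_step_false]
    rw [Finset.sum_const, nsmul_eq_mul, ← mul_assoc, inv_mul_cancel₀ hcard.ne', one_mul]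
    rfl
  | cons x xs ih =>
    have e1 : ex (fun T' => f T'.height) ((x :: xs) ++ [false]) T =
        (T.active.card : ℝ)⁻¹ * ∑ v ∈ T.active,
          ex (fun T' => f T'.height) (xs ++ [false]) (T.step x v) := rfl
    have e2 : ex (fun T' => f T'.height) (x :: xs) T =
        (T.active.card : ℝ)⁻¹ * ∑ v ∈ T.active,
          ex (fun T' => f T'.height) xs (T.step x v) := rfl
    rw [e1, e2]
    congr 1
    apply Finset.sum_congr rfl
    intro v hv
    exact ih (good_step h x hv) (valid_tail (xs := xs ++ [false]) h hx hv)

theorem valid_of_sums (x : List Bool) (S : ℕ)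
    (hx : ∀ j, j < x.length →
      0 < (S : ℤ) + ((x.take j).map fun b => if b then (1 : ℤ) else -1).sum) : Valid x S := by
  induction x generalizing S with
  | nil => trivial
  | cons b xs ih =>
    have h0 : 0 < S := by
      have := hx 0 (by simp)
      simp only [List.take_zero, List.map_nil, List.sum_nil, add_zero] at this
      exact_mod_cast this
    cases b with
    | true =>
      refine ⟨h0, ih (S + 1) ?_⟩
      intro j hj
      have := hx (j + 1) (by simpa using hj)
      simp only [List.take_succ_cons, List.map_cons, List.sum_cons, if_true] at this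
      push_cast
      linarith
    | false =>
      refine ⟨h0, ih (S - 1) ?_⟩
      intro j hj
      have := hx (j + 1) (by simpa using hj)
      simp only [List.take_succ_cons, List.map_cons, List.sum_cons, Bool.false_eq_true,
        if_false] at this
      have e : ((S - 1 : ℕ) : ℤ) = (S : ℤ) - 1 := by omega
      rw [e]
      linarith

/-- admissible sequences are valid words -/
theorem valid_of_admissible {x : List Bool} (hx : Admissible x) : Valid x 1 := by
  apply valid_of_sums
  intro j hj
  rcases Nat.eq_zero_or_pos j with h | h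
  · subst h
    simp
  · exact hx j h hj

theorem single_card : FTree.single.active.card = 1 := rfl

theorem depth_zero (T : FTree) : T.depth 0 = 0 := by
  unfold FTree.depth
  apply Nat.le_antisymm _ (Nat.zero_le _)
  apply Nat.sInf_le
  rfl

theorem height_single : FTree.single.height = 0 := by
  unfold FTree.height
  have : FTree.single.size = 1 := rfl
  rw [this]
  simp [depth_zero]

theorem psi_single (m : ℕ) : psi m FTree.single = g (m + 1) := by
  unfold psi
  rw [height_single, if_pos (Nat.zero_le _)]
  have : FTree.single.active = {0} := rfl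
  rw [this, Finset.prod_singleton, depth_zero]
  rfl

theorem expect_eq_ex {x : List Bool} (hx : Valid x 1) (f : FTree → ℝ) (hf : ∀ T', 0 ≤ f T') :
    expect x f = ex f x FTree.single :=
  tsum_evolve good_single x hx f hf

theorem expect_height {x : List Bool} (hx : Valid x 1) (c M : ℕ) (hM : x.length ≤ M) :
    expect x (fun T => ((T.height - c : ℕ) : ℝ)) =
      ∑ m ∈ Finset.Ico c (M + 1), (1 - ev (run x 1 (g (m + 1)))) := by
  rw [expect_eq_ex hx _ (fun T' => Nat.cast_nonneg _)]
  rw [ex_height good_single x hx c M (by rw [height_single]; omega)]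
  apply Finset.sum_congr rfl
  intro m _
  rw [ex_indicator good_single m x, psi_single, single_card]

theorem valid_append_left (x y : List Bool) (S : ℕ) (h : Valid (x ++ y) S) : Valid x S := by
  induction x generalizing S with
  | nil => trivial
  | cons b xs ih =>
    cases b with
    | true => exact ⟨h.1, ih _ h.2⟩
    | false => exact ⟨h.1, ih _ h.2⟩

theorem expect_append_false {x : List Bool} (hx : Valid (x ++ [false]) 1) (f : ℕ → ℝ)
    (hf : ∀ n, 0 ≤ f n) :
    expect (x ++ [false]) (fun T => f T.height) = expect x (fun T => f T.height) := by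
  rw [expect_eq_ex hx _ (fun T' => hf _),
    expect_eq_ex (valid_append_left _ _ _ hx) _ (fun T' => hf _)]
  exact ex_append_false good_single x hx f

end Pool.Agent.R527.FZ
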