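import Pool.Agent.R527.FZ.Ode
import Pool.Agent.R527.FZ.Pos
import Pool.Agent.R527.FZ.Tree2

namespace Pool.Agent.R527.FZ

open MvPolynomial

theorem iter_smul (k : ℕ) (c : ℝ) (F : Rg) : U^[k] (c • F) = c • U^[k] F := by
  induction k generalizing F with
  | zero => rfl
  | succ k ih => rw [Function.iterate_succ_apply, Function.iterate_succ_apply, Derivation.map_smul, ih]

theorem iter_sum (k : ℕ) (s : Finset ℕ) (f : ℕ → Rg) :
    U^[k] (∑ m ∈ s, f m) = ∑ m ∈ s, U^[k] (f m) := by
  induction k generalizing f with
  | zero => rfl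
  | succ k ih =>
    rw [Function.iterate_succ_apply, map_sum, ih]
    rfl

theorem run_rep (k : ℕ) (S : ℕ) (ys : List Bool) (F : Rg) :
    run (List.replicate k true ++ ys) (S + 1) F =
      run ys (S + 1 + k) (((S.factorial : ℝ) / ((S + k).factorial : ℝ)) • U^[k] F) := by
  induction k generalizing S F with
  | zero =>
    have h : (S.factorial : ℝ) / ((S + 0).factorial : ℝ) = 1 := by
      rw [Nat.add_zero]
      exact div_self (by exact_mod_cast (Nat.factorial_pos S).ne')
    rw [h]
    simp
  | succ k ih =>
    rw [List.replicate_succ, List.cons_append]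
    change run (List.replicate k true ++ ys) (S + 1 + 1) ((((S + 1 : ℕ) : ℝ))⁻¹ • U F) = _
    rw [ih, iter_smul, smul_smul, Function.iterate_succ_apply]
    have h1 : S + 1 + 1 + k = S + 1 + (k + 1) := by ring
    have h2 : S + 1 + k = S + (k + 1) := by ring
    rw [h1, h2]
    have h3 : ((S + 1).factorial : ℝ) = ((S + 1 : ℕ) : ℝ) * (S.factorial : ℝ) := by
      rw [Nat.factorial_succ]
      push_cast
      ring
    have h4 : ((S + 1 : ℕ) : ℝ) ≠ 0 := by positivity
    have h5 : ((S + 1).factorial : ℝ) / ((S + (k + 1)).factorial : ℝ) * ((S + 1 : ℕ) : ℝ)⁻¹ =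
        (S.factorial : ℝ) / ((S + (k + 1)).factorial : ℝ) := by
      rw [h3]
      field_simp
    rw [h5]

theorem run_rep_one (k : ℕ) (ys : List Bool) (F : Rg) :
    run (List.replicate k true ++ ys) 1 F =
      run ys (k + 1) (((k.factorial : ℝ)⁻¹) • U^[k] F) := by
  have h := run_rep k 0 ys F
  simp only [Nat.factorial_zero, Nat.cast_one, zero_add, one_div] at h
  rw [h, add_comm 1 k]

theorem tail_pos (N n M c : ℕ) (hM : N + n ≤ M) :
    ∑ m ∈ Finset.Ico c (M + 1), PowerSeries.coeff n (Ps m - 2 * Qs m + 2) ∈ Cone N :=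
  main_pos (Cone N) (fun n a => cone_div n a) N (fun i => X i) (fun i => X_mem N i)
    (fun i hi => neg_X_mem hi) g (fun j => rfl) es Ps Qs es_zero coeff_es der_es
    Ps_zero coeff_Ps der_Ps Qs_zero der_Qs n M c hM

theorem swap_term (k : ℕ) (hk : 1 ≤ k) (m : ℕ) :
    run [true, false] (k + 1) (phi (m + 1) k) - run [false, true] (k + 1) (phi (m + 1) k) =
      (k : ℝ)⁻¹ • PowerSeries.coeff (k + 1) (Ps m - 2 * Qs m + 2) := by
  have hk0 : (k : ℝ) ≠ 0 := by
    have : 0 < k := hk
    positivity
  have h2 : PowerSeries.coeff (k + 1) (2 : PowerSeries Rg) = 0 := by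
    have : (2 : PowerSeries Rg) = PowerSeries.C (2 : Rg) := by
      rw [map_ofNat]
    rw [this, PowerSeries.coeff_C, if_neg (Nat.succ_ne_zero k)]
  have hP : PowerSeries.coeff (k + 1) (Ps m) =
      ((k : ℝ) + 1)⁻¹ • (D0 (U (phi (m + 1) k)) - U (D0 (phi (m + 1) k))) := by
    rw [Ps, PowerSeries.coeff_mk, Vd, Derivation.commutator_apply]
    push_cast
    rfl
  have hphi : phi (m + 1) (k + 1) = ((k : ℝ) + 1)⁻¹ • U (phi (m + 1) k) := by
    unfold phi
    rw [Derivation.map_smul, smul_smul, Function.iterate_succ_apply', Nat.factorial_succ]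
    push_cast
    rw [mul_inv]
  have hQ : PowerSeries.coeff (k + 1) (2 * Qs m) =
      (2 * (((k : ℝ) + 2)⁻¹ * ((k : ℝ) + 1)⁻¹)) • D0 (U (phi (m + 1) k)) := by
    have h3 : (2 : PowerSeries Rg) = PowerSeries.C (2 : Rg) := by
      rw [map_ofNat]
    have h4 : (((k + 1 : ℕ) : ℝ) + 1)⁻¹ = ((k : ℝ) + 2)⁻¹ := by
      push_cast
      ring_nf
    rw [h3, PowerSeries.coeff_C_mul, Qs, PowerSeries.coeff_mk, hphi, Derivation.map_smul, h4,
      smul_smul, two_mul, two_mul, add_smul]
  rw [map_add, map_sub, h2, hP, hQ]
  change ((k + 1 + 1 : ℕ) : ℝ)⁻¹ • D0 (((k + 1 : ℕ) : ℝ)⁻¹ • U (phi (m + 1) k)) -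
    ((k + 1 - 1 : ℕ) : ℝ)⁻¹ • U (((k + 1 : ℕ) : ℝ)⁻¹ • D0 (phi (m + 1) k)) = _
  rw [Derivation.map_smul, Derivation.map_smul, smul_smul, smul_smul, Nat.add_sub_cancel]
  generalize D0 (U (phi (m + 1) k)) = A
  generalize U (D0 (phi (m + 1) k)) = B
  have h5 : ((k + 1 + 1 : ℕ) : ℝ) = (k : ℝ) + 2 := by push_cast; ring
  have h6 : ((k + 1 : ℕ) : ℝ) = (k : ℝ) + 1 := by push_cast; ring
  rw [h5, h6, add_zero, smul_sub, smul_sub, smul_sub, smul_smul, smul_smul, smul_smul]
  have h7 : ((k : ℝ) + 2)⁻¹ * ((k : ℝ) + 1)⁻¹ =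
      (k : ℝ)⁻¹ * ((k : ℝ) + 1)⁻¹ - (k : ℝ)⁻¹ * (2 * (((k : ℝ) + 2)⁻¹ * ((k : ℝ) + 1)⁻¹)) := by
    have h8 : (k : ℝ) + 2 ≠ 0 := by positivity
    have h9 : (k : ℝ) + 1 ≠ 0 := by positivity
    field_simp
    ring
  have h10 : (((k : ℝ) + 2)⁻¹ * ((k : ℝ) + 1)⁻¹) • A =
      ((k : ℝ)⁻¹ * ((k : ℝ) + 1)⁻¹) • A -
        ((k : ℝ)⁻¹ * (2 * (((k : ℝ) + 2)⁻¹ * ((k : ℝ) + 1)⁻¹))) • A := by
    rw [← sub_smul, ← h7]
  rw [h10]
  abel

theorem swap_poly (k : ℕ) (hk : 1 ≤ k) (N M c : ℕ) (hM : N + (k + 1) ≤ M) :
    run (List.replicate k true ++ [true, false]) 1 (∑ m ∈ Finset.Ico c (M + 1), g (m + 1)) -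
      run (List.replicate k true ++ [false, true]) 1 (∑ m ∈ Finset.Ico c (M + 1), g (m + 1)) ∈
        Cone N := by
  rw [run_rep_one, run_rep_one, iter_sum, Finset.smul_sum]
  have h1 : ∀ m, ((k.factorial : ℝ)⁻¹) • U^[k] (g (m + 1)) = phi (m + 1) k := fun m => rfl
  simp only [h1]
  obtain ⟨L1, hL1⟩ := run_linear [true, false] (k + 1)
  obtain ⟨L2, hL2⟩ := run_linear [false, true] (k + 1)
  rw [hL1, hL2, map_sum, map_sum, ← Finset.sum_sub_distrib]
  have h2 : ∀ m ∈ Finset.Ico c (M + 1), L1 (phi (m + 1) k) - L2 (phi (m + 1) k) =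
      (k : ℝ)⁻¹ • PowerSeries.coeff (k + 1) (Ps m - 2 * Qs m + 2) := by
    intro m _
    rw [← hL1, ← hL2]
    exact swap_term k hk m
  rw [Finset.sum_congr rfl h2, ← Finset.smul_sum]
  exact smul_mem (by positivity) (tail_pos N (k + 1) M c hM)

theorem valid_rep (k : ℕ) (S : ℕ) (hS : 0 < S) (ys : List Bool) :
    Valid (List.replicate k true ++ ys) S ↔ Valid ys (S + k) := by
  induction k generalizing S with
  | zero => simp
  | succ k ih =>
    rw [List.replicate_succ, List.cons_append]
    change (0 < S ∧ Valid (List.replicate k true ++ ys) (S + 1)) ↔ _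
    rw [ih (S + 1) (Nat.succ_pos S)]
    have : S + 1 + k = S + (k + 1) := by ring
    rw [this]
    exact ⟨fun h => h.2, fun h => ⟨hS, h⟩⟩

theorem swap_main (k : ℕ) (hk : 1 ≤ k) (v : List Bool)
    (hv : Valid (List.replicate k true ++ [false, true] ++ v) 1) (c : ℕ) :
    expect (List.replicate k true ++ [true, false] ++ v) (fun T => ((T.height - c : ℕ) : ℝ)) ≤
      expect (List.replicate k true ++ [false, true] ++ v)
        (fun T => ((T.height - c : ℕ) : ℝ)) := by
  have hv1 : Valid (List.replicate k true ++ [true, false] ++ v) 1 := by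
    rw [List.append_assoc, valid_rep k 1 Nat.one_pos] at hv ⊢
    have h1 : Valid v (1 + k) := by
      obtain ⟨h0, h1, h2⟩ := hv
      have : 1 + k - 1 + 1 = 1 + k := by omega
      rw [this] at h2
      exact h2
    refine ⟨by omega, by omega, ?_⟩
    exact h1
  set M := v.length + (k + 2) with hM
  have hlen1 : (List.replicate k true ++ [true, false] ++ v).length ≤ M := by
    simp only [List.length_append, List.length_replicate, List.length_cons, List.length_nil]
    omega
  have hlen2 : (List.replicate k true ++ [false, true] ++ v).length ≤ M := by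
    simp only [List.length_append, List.length_replicate, List.length_cons, List.length_nil]
    omega
  rw [expect_height hv1 c M hlen1, expect_height hv c M hlen2]
  rw [Finset.sum_sub_distrib, Finset.sum_sub_distrib]
  have hs : ∀ x : List Bool, ∑ m ∈ Finset.Ico c (M + 1), ev (run x 1 (g (m + 1))) =
      ev (run x 1 (∑ m ∈ Finset.Ico c (M + 1), g (m + 1))) := by
    intro x
    obtain ⟨L, hL⟩ := run_linear x 1
    rw [hL, map_sum]
    unfold ev
    rw [map_sum]
    exact Finset.sum_congr rfl fun m _ => by rw [hL]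
  rw [hs, hs]
  have key := swap_poly k hk v.length M c (by omega)
  set F := ∑ m ∈ Finset.Ico c (M + 1), g (m + 1) with hF
  have e1 : run (List.replicate k true ++ [true, false] ++ v) 1 F =
      run v (k + 1) (run (List.replicate k true ++ [true, false]) 1 F) := by
    rw [List.append_assoc, run_rep_one, run_rep_one]
    rfl
  have e2 : run (List.replicate k true ++ [false, true] ++ v) 1 F =
      run v (k + 1) (run (List.replicate k true ++ [false, true]) 1 F) := by
    rw [List.append_assoc, run_rep_one, run_rep_one]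
    change run v (k + 1 - 1 + 1) _ = _
    rw [Nat.add_sub_cancel]
    rfl
  have h3 : 0 ≤ ev (run v (k + 1) (run (List.replicate k true ++ [true, false]) 1 F -
      run (List.replicate k true ++ [false, true]) 1 F)) :=
    ev_nonneg (run_mem v (k + 1) key)
  rw [e1, e2]
  obtain ⟨L, hL⟩ := run_linear v (k + 1)
  rw [hL, map_sub] at h3
  rw [hL, hL]
  unfold ev at h3 ⊢
  rw [map_sub] at h3
  linarith

theorem expect_rep_false (n j : ℕ) (hj : j ≤ n + 1) (c : ℕ) :
    expect (List.replicate n true ++ List.replicate j false)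
      (fun T => ((T.height - c : ℕ) : ℝ)) =
    expect (List.replicate n true) (fun T => ((T.height - c : ℕ) : ℝ)) := by
  induction j with
  | zero => simp
  | succ j ih =>
    rw [List.replicate_succ', ← List.append_assoc]
    have hval : Valid (List.replicate n true ++ List.replicate j false ++ [false]) 1 := by
      rw [List.append_assoc, valid_rep n 1 Nat.one_pos]
      have : ∀ i S, i < S → Valid (List.replicate i false ++ [false]) S := by
        intro i
        induction i with
        | zero => intro S hS; exact ⟨hS, trivial⟩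
        | succ i ih2 =>
          intro S hS
          rw [List.replicate_succ, List.cons_append]
          exact ⟨by omega, ih2 (S - 1) (by omega)⟩
      exact this j (1 + n) (by omega)
    have := expect_append_false hval (fun h => ((h - c : ℕ) : ℝ)) (fun n => by positivity)
    rw [← ih (by omega)]
    exact this

theorem one_block (k l j : ℕ) (hk : 1 ≤ k)
    (hv : Valid (List.replicate k true ++ (false :: (List.replicate l true ++
      List.replicate j false))) 1) (c : ℕ) :
    expect (List.replicate (k + l) true) (fun T => ((T.height - c : ℕ) : ℝ)) ≤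
      expect (List.replicate k true ++ (false :: (List.replicate l true ++
        List.replicate j false))) (fun T => ((T.height - c : ℕ) : ℝ)) := by
  induction l generalizing k with
  | zero =>
    have h1 : List.replicate k true ++ (false :: (List.replicate 0 true ++
        List.replicate j false)) = List.replicate k true ++ List.replicate (j + 1) false := by
      rw [List.replicate_zero, List.nil_append, List.replicate_succ]
    rw [h1] at hv ⊢
    have h2 : j + 1 ≤ k + 1 := by
      rw [valid_rep k 1 Nat.one_pos] at hv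
      have : ∀ i S, Valid (List.replicate i false) S → i ≤ S := by
        intro i
        induction i with
        | zero => intro S _; exact Nat.zero_le _
        | succ i ih2 =>
          intro S hS
          rw [List.replicate_succ] at hS
          have := ih2 _ hS.2
          have := hS.1
          omega
      have := this _ _ hv
      omega
    rw [expect_rep_false k (j + 1) h2 c, add_zero]
  | succ l ih =>
    have h1 : List.replicate k true ++ (false :: (List.replicate (l + 1) true ++
        List.replicate j false)) = List.replicate k true ++ [false, true] ++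
          (List.replicate l true ++ List.replicate j false) := by
      rw [List.replicate_succ, List.cons_append, List.append_assoc]
      rfl
    have h2 : List.replicate (k + 1) true ++ (false :: (List.replicate l true ++
        List.replicate j false)) = List.replicate k true ++ [true, false] ++
          (List.replicate l true ++ List.replicate j false) := by
      rw [List.replicate_succ', List.append_assoc, List.append_assoc]
      rfl
    rw [h1] at hv ⊢
    have h3 := swap_main k hk _ hv c
    refine le_trans ?_ h3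
    rw [← h2]
    have h4 : k + (l + 1) = (k + 1) + l := by ring
    rw [h4]
    apply ih (k + 1) (by omega)
    rw [valid_rep (k + 1) 1 Nat.one_pos]
    rw [List.append_assoc, valid_rep k 1 Nat.one_pos] at hv
    obtain ⟨h5, h6, h7⟩ := hv
    refine ⟨by omega, ?_⟩
    have h8 : 1 + (k + 1) - 1 = 1 + k - 1 + 1 := by omega
    rw [h8]
    exact h7

end Pool.Agent.R527.FZ
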