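import Pool.Agent.R527.FZ.Cone

namespace Pool.Agent.R527.FZ

open MvPolynomial

/-- `U^k (g μ) / k!` -/
noncomputable def phi (μ k : ℕ) : Rg := ((k.factorial : ℝ)⁻¹) • (U^[k] (g μ))

noncomputable def es (j : ℕ) : PowerSeries Rg :=
  PowerSeries.mk fun k => ((k.factorial : ℝ)⁻¹) • ((fun a : Rg => U a + g j * a)^[k] 1)

noncomputable def Vd : Derivation ℝ Rg Rg := ⁅D0, U⁆

noncomputable def Ps (m : ℕ) : PowerSeries Rg :=
  PowerSeries.mk fun n => (n : ℝ)⁻¹ • Vd (phi (m + 1) (n - 1))

noncomputable def Qs (m : ℕ) : PowerSeries Rg :=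
  PowerSeries.mk fun n => ((n : ℝ) + 1)⁻¹ • D0 (phi (m + 1) n)

namespace OdeAux

/-- coefficientwise extension of a derivation -/
noncomputable def ext (D : Derivation ℝ Rg Rg) (f : PowerSeries Rg) : PowerSeries Rg :=
  PowerSeries.mk fun n => D (PowerSeries.coeff n f)

theorem coeff_ext (D : Derivation ℝ Rg Rg) (f : PowerSeries Rg) (n : ℕ) :
    PowerSeries.coeff n (ext D f) = D (PowerSeries.coeff n f) := PowerSeries.coeff_mk _ _

theorem ext_mul (D : Derivation ℝ Rg Rg) (f h : PowerSeries Rg) :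
    ext D (f * h) = f * ext D h + ext D f * h := by
  ext1 n
  rw [coeff_ext, PowerSeries.coeff_mul, map_add, PowerSeries.coeff_mul, PowerSeries.coeff_mul,
    map_sum, ← Finset.sum_add_distrib]
  refine Finset.sum_congr rfl fun p _ => ?_
  rw [coeff_ext, coeff_ext, D.leibniz, smul_eq_mul, smul_eq_mul]
  ring

theorem cast_add_one (n : ℕ) : ((n : Rg) + 1) = ((n + 1 : ℕ) : Rg) := by push_cast; ring

theorem D_cast (D : Derivation ℝ Rg Rg) (a : Rg) (n : ℕ) :
    D (a * ((n : Rg) + 1)) = D a * ((n : Rg) + 1) := by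
  rw [cast_add_one, D.leibniz, D.map_natCast, smul_zero, zero_add, smul_eq_mul, mul_comm]

theorem ext_der (D : Derivation ℝ Rg Rg) (f : PowerSeries Rg) :
    PowerSeries.derivative Rg (ext D f) = ext D (PowerSeries.derivative Rg f) := by
  ext1 n
  rw [PowerSeries.coeff_derivative, coeff_ext, coeff_ext, PowerSeries.coeff_derivative, D_cast]

theorem ext_sub (D : Derivation ℝ Rg Rg) (f h : PowerSeries Rg) :
    ext D (f - h) = ext D f - ext D h := by
  ext1 n
  rw [coeff_ext, map_sub, map_sub, map_sub, coeff_ext, coeff_ext]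

theorem cast_ne (n : ℕ) : ((n : Rg) + 1) ≠ 0 := by
  rw [cast_add_one]
  exact Nat.cast_ne_zero.2 (Nat.succ_ne_zero n)

/-- uniqueness for `Y' = ext U Y` -/
theorem uniqU (Y : PowerSeries Rg) (h : PowerSeries.derivative Rg Y = ext U Y)
    (h0 : PowerSeries.coeff 0 Y = 0) : Y = 0 := by
  ext1 n
  rw [map_zero]
  induction n with
  | zero => exact h0
  | succ n ih =>
    have h1 := congrArg (PowerSeries.coeff n) h
    rw [PowerSeries.coeff_derivative, coeff_ext, ih, map_zero] at h1
    rcases mul_eq_zero.1 h1 with h2 | h2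
    · exact h2
    · exact absurd h2 (cast_ne n)

/-- uniqueness for `Y' = A * Y` -/
theorem uniqA (A Y : PowerSeries Rg) (h : PowerSeries.derivative Rg Y = A * Y)
    (h0 : PowerSeries.coeff 0 Y = 0) : Y = 0 := by
  ext1 n
  rw [map_zero]
  induction n using Nat.strong_induction_on with
  | _ n ih =>
    cases n with
    | zero => exact h0
    | succ n =>
      have h1 := congrArg (PowerSeries.coeff n) h
      rw [PowerSeries.coeff_derivative, PowerSeries.coeff_mul, Finset.sum_eq_zero] at h1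
      · rcases mul_eq_zero.1 h1 with h2 | h2
        · exact h2
        · exact absurd h2 (cast_ne n)
      · intro p hp
        have hp' := Finset.HasAntidiagonal.mem_antidiagonal.1 hp
        rw [ih p.2 (by omega), mul_zero]

/-- the generating function of `phi μ` -/
noncomputable def F (μ : ℕ) : PowerSeries Rg := PowerSeries.mk (phi μ)

theorem coeff_F (μ n : ℕ) : PowerSeries.coeff n (F μ) = phi μ n := PowerSeries.coeff_mk _ _

theorem smul_fac (n : ℕ) (a : Rg) :
    (((n + 1).factorial : ℝ)⁻¹ • a) * ((n : Rg) + 1) = ((n.factorial : ℝ)⁻¹) • a := by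
  have h1 : ((n : Rg) + 1) = C ((n : ℝ) + 1) := by
    rw [map_add, map_one, map_natCast]
  rw [h1, smul_mul_assoc, mul_comm, ← smul_eq_C_mul, smul_smul]
  congr 1
  rw [Nat.factorial_succ]
  push_cast
  have : ((n : ℝ) + 1) ≠ 0 := by positivity
  have : (n.factorial : ℝ) ≠ 0 := by positivity
  field_simp

theorem inv_smul_mul (n : ℕ) (a : Rg) : (((n : ℝ) + 1)⁻¹ • a) * ((n : Rg) + 1) = a := by
  have h1 : ((n : Rg) + 1) = C ((n : ℝ) + 1) := by
    rw [map_add, map_one, map_natCast]
  rw [h1, smul_mul_assoc, mul_comm, ← smul_eq_C_mul, smul_smul,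
    inv_mul_cancel₀ (by positivity), one_smul]

theorem der_F (μ : ℕ) : PowerSeries.derivative Rg (F μ) = ext U (F μ) := by
  ext1 n
  rw [PowerSeries.coeff_derivative, coeff_ext, coeff_F, coeff_F]
  unfold phi
  rw [smul_fac, Function.iterate_succ_apply', U.map_smul]

theorem phi_zero (μ : ℕ) : phi μ 0 = g μ := by
  unfold phi
  simp

theorem g_zero : g 0 = 0 := by
  unfold g
  simp

theorem F_zero : F 0 = 0 := by
  ext1 n
  rw [coeff_F, map_zero]
  unfold phi
  rw [g_zero]
  have : U^[n] (0 : Rg) = 0 := by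
    induction n with
    | zero => rfl
    | succ n ih => rw [Function.iterate_succ_apply', ih, map_zero]
  rw [this, smul_zero]

theorem c0_mul (a b : PowerSeries Rg) : PowerSeries.coeff 0 (a * b) =
    PowerSeries.coeff 0 a * PowerSeries.coeff 0 b := by
  simp only [PowerSeries.coeff_zero_eq_constantCoeff, map_mul]

theorem der_F_succ (μ : ℕ) : PowerSeries.derivative Rg (F (μ + 1)) = F (μ + 1) * F μ := by
  rw [← sub_eq_zero]
  refine uniqU _ ?_ ?_
  · rw [map_sub, ext_sub, ext_mul, ← ext_der, ← der_F (μ + 1), ← der_F μ, Derivation.leibniz,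
      smul_eq_mul, smul_eq_mul]
    ring
  · rw [map_sub, PowerSeries.coeff_derivative, c0_mul, coeff_F, coeff_F, coeff_F, phi_zero,
      phi_zero]
    have h1 : phi (μ + 1) (0 + 1) = U (g (μ + 1)) := by
      unfold phi
      simp
    rw [h1, U_g]
    push_cast
    ring

theorem iter_g (μ k : ℕ) : U^[k] (g (μ + 1)) =
    g (μ + 1) * (fun a : Rg => U a + g μ * a)^[k] 1 := by
  induction k with
  | zero => simp
  | succ k ih =>
    rw [Function.iterate_succ_apply', Function.iterate_succ_apply', ih, U.leibniz, U_g,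
      smul_eq_mul, smul_eq_mul]
    ring

theorem F_succ (μ : ℕ) : F (μ + 1) = PowerSeries.C (g (μ + 1)) * es μ := by
  ext1 n
  rw [PowerSeries.coeff_C_mul, coeff_F]
  unfold phi es
  rw [PowerSeries.coeff_mk, iter_g, mul_smul_comm]

theorem g_ne (μ : ℕ) : g (μ + 1) ≠ 0 := by
  intro h
  have h1 := congrArg (MvPolynomial.eval (fun _ => (1 : ℝ))) h
  unfold g at h1
  rw [map_sum, map_zero] at h1
  simp only [eval_X, Finset.sum_const, Finset.card_range, nsmul_eq_mul, mul_one] at h1
  have : ((μ + 1 : ℕ) : ℝ) ≠ 0 := by positivity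
  exact this h1

theorem der_es' (μ : ℕ) : PowerSeries.derivative Rg (es μ) = es μ * F μ := by
  have h1 := der_F_succ μ
  rw [F_succ, Derivation.leibniz, PowerSeries.derivative_C, smul_zero, add_zero, smul_eq_mul,
    mul_assoc] at h1
  have h2 : (PowerSeries.C (g (μ + 1)) : PowerSeries Rg) ≠ 0 := by
    intro h
    have h3 := congrArg (PowerSeries.coeff 0) h
    rw [PowerSeries.coeff_zero_C, map_zero] at h3
    exact g_ne μ h3
  exact mul_left_cancel₀ h2 h1

theorem coeff_es0 (m : ℕ) : PowerSeries.coeff 0 (es m) = 1 := by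
  unfold es
  rw [PowerSeries.coeff_mk]
  simp

theorem coeffC0 (a : Rg) : PowerSeries.coeff 0 (PowerSeries.C a) = a := PowerSeries.coeff_zero_C a

theorem es0 : es 0 = 1 := by
  have h1 := der_es' 0
  rw [F_zero, mul_zero] at h1
  rw [← sub_eq_zero]
  refine uniqA 0 _ ?_ ?_
  · rw [map_sub, h1, PowerSeries.derivative_one]
    ring
  · rw [map_sub, coeff_es0, PowerSeries.coeff_zero_one]
    ring

theorem derXQ (m : ℕ) : PowerSeries.derivative Rg (PowerSeries.X * Qs m) = ext D0 (F (m + 1)) := by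
  ext1 n
  rw [PowerSeries.coeff_derivative, PowerSeries.coeff_succ_X_mul, coeff_ext, coeff_F]
  unfold Qs
  rw [PowerSeries.coeff_mk, inv_smul_mul]

theorem derP (m : ℕ) : PowerSeries.derivative Rg (Ps m) = ext Vd (F (m + 1)) := by
  ext1 n
  rw [PowerSeries.coeff_derivative, coeff_ext, coeff_F]
  unfold Ps
  rw [PowerSeries.coeff_mk]
  have h := inv_smul_mul n (Vd (phi (m + 1) n))
  push_cast
  exact h

theorem D0_g1 (j : ℕ) : D0 (g (j + 1)) = 1 := by
  rw [D0_g, if_neg (Nat.succ_ne_zero j)]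

theorem Vd_g (j : ℕ) : Vd (g (j + 1)) = g (j + 1) * D0 (g j) + g j := by
  unfold Vd
  rw [Derivation.commutator_apply, U_g, D0_g1, U.map_one_eq_zero, sub_zero, D0.leibniz, D0_g1,
    smul_eq_mul, smul_eq_mul, mul_one]

end OdeAux

open OdeAux

theorem es_zero : es 0 = 1 := es0

theorem coeff_es (m : ℕ) : PowerSeries.coeff 0 (es m) = 1 := coeff_es0 m

theorem der_es (m : ℕ) : PowerSeries.derivative Rg (es (m + 1)) =
    PowerSeries.C (g (m + 1)) * es m * es (m + 1) := by
  rw [der_es', F_succ]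
  ring

theorem Ps_zero : Ps 0 = 0 := by
  refine uniqA 0 _ ?_ ?_
  · rw [derP, zero_mul, F_succ, es0, mul_one]
    ext1 n
    rw [coeff_ext, map_zero, PowerSeries.coeff_C]
    split_ifs
    · rw [Vd_g, g_zero, D0.map_zero]
      ring
    · exact Vd.map_zero
  · unfold Ps
    rw [PowerSeries.coeff_mk]
    simp

theorem coeff_Ps (m : ℕ) : PowerSeries.coeff 0 (Ps m) = 0 := by
  unfold Ps
  rw [PowerSeries.coeff_mk]
  simp

theorem der_Ps (m : ℕ) : PowerSeries.derivative Rg (Ps (m + 1)) =
    PowerSeries.C (g (m + 2) + g (m + 1)) * es (m + 1) +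
      PowerSeries.C (g (m + 2)) * es (m + 1) * Ps m := by
  have hW : PowerSeries.derivative Rg (ext Vd (F (m + 2))) =
      F (m + 2) * ext Vd (F (m + 1)) + ext Vd (F (m + 2)) * F (m + 1) := by
    rw [ext_der, der_F_succ (m + 1), ext_mul]
  have key : ext Vd (F (m + 2)) - PowerSeries.C (g (m + 2) + g (m + 1)) * es (m + 1) -
      F (m + 2) * Ps m = 0 := by
    refine uniqA (F (m + 1)) _ ?_ ?_
    · rw [map_sub, map_sub, hW, Derivation.leibniz, Derivation.leibniz, PowerSeries.derivative_C,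
        derP, der_es', der_F_succ (m + 1)]
      simp only [smul_eq_mul]
      ring
    · rw [map_sub, map_sub, coeff_ext, c0_mul, c0_mul, coeffC0, coeff_es0, coeff_F,
        phi_zero, coeff_Ps, Vd_g, D0_g1]
      ring
  rw [derP]
  have h2 : ext Vd (F (m + 1 + 1)) = PowerSeries.C (g (m + 2) + g (m + 1)) * es (m + 1) +
      F (m + 2) * Ps m := by
    linear_combination key
  rw [h2, F_succ]

theorem Qs_zero : Qs 0 = 1 := by
  ext1 n
  have h1 : PowerSeries.coeff n (ext D0 (F 1)) = if n = 0 then 1 else 0 := by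
    rw [F_succ, es0, mul_one, coeff_ext, PowerSeries.coeff_C]
    split_ifs
    · exact D0_g1 0
    · exact D0.map_zero
  rw [coeff_ext, coeff_F] at h1
  unfold Qs
  rw [PowerSeries.coeff_mk, h1, PowerSeries.coeff_one]
  split_ifs with h
  · rw [h]
    simp
  · rw [smul_zero]

theorem der_Qs (m : ℕ) : PowerSeries.derivative Rg (PowerSeries.X * Qs (m + 1)) =
    es (m + 1) + PowerSeries.X * PowerSeries.C (g (m + 2)) * es (m + 1) * Qs m := by
  have hW : PowerSeries.derivative Rg (ext D0 (F (m + 2))) =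
      F (m + 2) * ext D0 (F (m + 1)) + ext D0 (F (m + 2)) * F (m + 1) := by
    rw [ext_der, der_F_succ (m + 1), ext_mul]
  have key : ext D0 (F (m + 2)) - es (m + 1) - F (m + 2) * (PowerSeries.X * Qs m) = 0 := by
    refine uniqA (F (m + 1)) _ ?_ ?_
    · rw [map_sub, map_sub, hW, Derivation.leibniz, derXQ, der_es', der_F_succ (m + 1)]
      simp only [smul_eq_mul]
      ring
    · rw [map_sub, map_sub, coeff_ext, c0_mul, c0_mul, coeff_es0, coeff_F,
        phi_zero, D0_g1, PowerSeries.coeff_zero_X]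
      ring
  rw [derXQ]
  have h2 : ext D0 (F (m + 1 + 1)) = es (m + 1) + F (m + 2) * (PowerSeries.X * Qs m) := by
    linear_combination key
  rw [h2, F_succ]
  ring

end Pool.Agent.R527.FZ
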