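import Pool.Agent.R527.FZ.Cone

namespace Pool.Agent.R527.FZ

open MvPolynomial

/-- invariant of the trees produced by the process -/
def Good (T : FTree) : Prop :=
  0 < T.size ∧ T.parent 0 = 0 ∧ (∀ v, 0 < v → v < T.size → T.parent v < v) ∧
    ∀ v ∈ T.active, v < T.size

/-- expectation computed recursively -/
noncomputable def ex (f : FTree → ℝ) : List Bool → FTree → ℝ
  | [], T => f T
  | x :: xs, T => (T.active.card : ℝ)⁻¹ * ∑ v ∈ T.active, ex f xs (T.step x v)

noncomputable def psi (m : ℕ) (T : FTree) : Rg :=
  if T.height ≤ m then ∏ v ∈ T.active, g (m + 1 - T.depth v) else 0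

theorem good_single : Good FTree.single := by
  refine ⟨Nat.one_pos, rfl, ?_, ?_⟩
  · intro v h0 h1
    have h2 : v < 1 := h1
    omega
  · intro v hv
    have h2 : v ∈ ({0} : Finset ℕ) := hv
    rw [Finset.mem_singleton] at h2
    rw [h2]
    exact Nat.one_pos

theorem good_step {T : FTree} (h : Good T) (x : Bool) {v : ℕ} (hv : v ∈ T.active) :
    Good (T.step x v) := by
  obtain ⟨h1, h2, h3, h4⟩ := h
  cases x with
  | true =>
    refine ⟨Nat.succ_pos _, ?_, ?_, ?_⟩
    · have : Function.update T.parent T.size v 0 = T.parent 0 :=
        Function.update_of_ne (by omega) _ _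
      exact this.trans h2
    · intro u hu0 hu
      have hu' : u < T.size + 1 := hu
      change Function.update T.parent T.size v u < u
      by_cases hus : u = T.size
      · subst hus
        rw [Function.update_self]
        exact h4 v hv
      · rw [Function.update_of_ne hus]
        exact h3 u hu0 (by omega)
    · intro u hu
      have hu' : u ∈ insert T.size T.active := hu
      change u < T.size + 1
      rw [Finset.mem_insert] at hu'
      rcases hu' with hu' | hu'
      · omega
      · have := h4 u hu'
        omega
  | false =>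
    refine ⟨h1, h2, h3, ?_⟩
    intro u hu
    have hu' : u ∈ T.active.erase v := hu
    exact h4 u (Finset.mem_of_mem_erase hu')

theorem card_step_true {T : FTree} (h : Good T) {v : ℕ} (hv : v ∈ T.active) :
    (T.step true v).active.card = T.active.card + 1 := by
  change (insert T.size T.active).card = _
  apply Finset.card_insert_of_notMem
  intro h1
  exact lt_irrefl _ (h.2.2.2 _ h1)

theorem card_step_false {T : FTree} {v : ℕ} (hv : v ∈ T.active) :
    (T.step false v).active.card = T.active.card - 1 :=
  Finset.card_erase_of_mem hv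

theorem dep_succ (p : ℕ → ℕ) (v : ℕ) (hv : v ≠ 0) (hk : ∃ k, p^[k] (p v) = 0) :
    sInf {k : ℕ | p^[k] v = 0} = sInf {k : ℕ | p^[k] (p v) = 0} + 1 := by
  have h1 : p^[sInf {k : ℕ | p^[k] (p v) = 0}] (p v) = 0 :=
    Nat.sInf_mem (s := {k : ℕ | p^[k] (p v) = 0}) hk
  have h2 : sInf {k : ℕ | p^[k] v = 0} ≤ sInf {k : ℕ | p^[k] (p v) = 0} + 1 := by
    apply Nat.sInf_le
    change p^[sInf {k : ℕ | p^[k] (p v) = 0} + 1] v = 0
    rw [Function.iterate_succ_apply]
    exact h1
  have hne : ∃ k, p^[k] v = 0 := by
    obtain ⟨k, hk⟩ := hk
    exact ⟨k + 1, by rw [Function.iterate_succ_apply]; exact hk⟩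
  have h3 : p^[sInf {k : ℕ | p^[k] v = 0}] v = 0 :=
    Nat.sInf_mem (s := {k : ℕ | p^[k] v = 0}) hne
  generalize hl : sInf {k : ℕ | p^[k] v = 0} = l at h2 h3 ⊢
  cases l with
  | zero => exact absurd h3 hv
  | succ l =>
    rw [Function.iterate_succ_apply] at h3
    have h4 : sInf {k : ℕ | p^[k] (p v) = 0} ≤ l := Nat.sInf_le h3
    omega

theorem reach0 {T : FTree} (h : Good T) : ∀ u, u < T.size → ∃ k, T.parent^[k] u = 0 := by
  intro u
  induction u using Nat.strong_induction_on with
  | _ u ih =>
    intro hu
    by_cases h0 : u = 0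
    · exact ⟨0, h0⟩
    · have h1 := h.2.2.1 u (Nat.pos_of_ne_zero h0) hu
      obtain ⟨k, hk⟩ := ih (T.parent u) h1 (h1.trans hu)
      exact ⟨k + 1, by rw [Function.iterate_succ_apply]; exact hk⟩

theorem parent_lt {T : FTree} (h : Good T) {u : ℕ} (hu : u < T.size) : T.parent u < T.size := by
  by_cases h0 : u = 0
  · rw [h0, h.2.1]; exact h.1
  · exact (h.2.2.1 u (Nat.pos_of_ne_zero h0) hu).trans hu

theorem iter_eq {T : FTree} (h : Good T) (v : ℕ) (k : ℕ) : ∀ u, u < T.size →
    (T.step true v).parent^[k] u = T.parent^[k] u := by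
  induction k with
  | zero => intro u _; rfl
  | succ k ih =>
    intro u hu
    rw [Function.iterate_succ_apply, Function.iterate_succ_apply]
    have h1 : (T.step true v).parent u = T.parent u := by
      change Function.update T.parent T.size v u = _
      exact Function.update_of_ne (by omega) _ _
    rw [h1]
    exact ih _ (parent_lt h hu)

theorem depth_step_old {T : FTree} (h : Good T) (v : ℕ) {u : ℕ} (hu : u < T.size) :
    (T.step true v).depth u = T.depth u := by
  unfold FTree.depth
  congr 1
  ext k
  have := iter_eq h v k u hu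
  constructor
  · intro h1
    have h1' : (T.step true v).parent^[k] u = 0 := h1
    change T.parent^[k] u = 0
    rw [← this]; exact h1'
  · intro h1
    have h1' : T.parent^[k] u = 0 := h1
    change (T.step true v).parent^[k] u = 0
    rw [this]; exact h1'

theorem depth_step_new {T : FTree} (h : Good T) {v : ℕ} (hv : v < T.size) :
    (T.step true v).depth T.size = T.depth v + 1 := by
  have h1 : (T.step true v).parent T.size = v := by
    change Function.update T.parent T.size v T.size = _
    exact Function.update_self _ _ _
  have h2 := dep_succ (T.step true v).parent T.size (by have := h.1; omega) (by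
    rw [h1]
    obtain ⟨k, hk⟩ := reach0 h v hv
    exact ⟨k, by rw [iter_eq h v k v hv]; exact hk⟩)
  rw [h1] at h2
  have h3 := depth_step_old h v hv
  unfold FTree.depth at h3 ⊢
  rw [h2, h3]

theorem height_step_true {T : FTree} (h : Good T) {v : ℕ} (hv : v ∈ T.active) :
    (T.step true v).height = max T.height (T.depth v + 1) := by
  unfold FTree.height
  have h1 : (T.step true v).size = T.size + 1 := rfl
  rw [h1, Finset.range_add_one, Finset.sup_insert, depth_step_new h (h.2.2.2 v hv), max_comm]
  congr 1
  apply Finset.sup_congr rfl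
  intro u hu
  exact depth_step_old h v (Finset.mem_range.mp hu)

theorem height_step_false {T : FTree} {v : ℕ} :
    (T.step false v).height = T.height := rfl

theorem depth_le {T : FTree} (h : Good T) {v : ℕ} (hv : v ∈ T.active) : T.depth v ≤ T.height :=
  Finset.le_sup (f := T.depth) (Finset.mem_range.mpr (h.2.2.2 v hv))

theorem deriv_prod (D : Derivation ℝ Rg Rg) (s : Finset ℕ) (f k : ℕ → Rg)
    (hf : ∀ v ∈ s, D (f v) = f v * k v) : D (∏ v ∈ s, f v) = ∑ v ∈ s, k v * ∏ u ∈ s, f u := by
  classical
  induction s using Finset.induction_on with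
  | empty => simp
  | insert a s ha ih =>
    rw [Finset.prod_insert ha, Derivation.leibniz, hf a (Finset.mem_insert_self _ _),
      ih (fun v hv => hf v (Finset.mem_insert_of_mem hv)), Finset.sum_insert ha]
    simp only [smul_eq_mul]
    rw [Finset.mul_sum]
    have : ∀ i ∈ s, f a * (k i * ∏ u ∈ s, f u) = k i * (f a * ∏ u ∈ s, f u) := by
      intro i _; ring
    rw [Finset.sum_congr rfl this]
    ring

theorem deriv_prod_one (D : Derivation ℝ Rg Rg) (s : Finset ℕ) (f : ℕ → Rg)
    (hf : ∀ v ∈ s, D (f v) = 1) : D (∏ v ∈ s, f v) = ∑ v ∈ s, ∏ u ∈ s.erase v, f u := by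
  classical
  induction s using Finset.induction_on with
  | empty => simp
  | insert a s ha ih =>
    rw [Finset.prod_insert ha, Derivation.leibniz, hf a (Finset.mem_insert_self _ _),
      ih (fun v hv => hf v (Finset.mem_insert_of_mem hv)), Finset.sum_insert ha,
      Finset.erase_insert ha]
    simp only [smul_eq_mul]
    rw [Finset.mul_sum, mul_one, add_comm]
    congr 1
    apply Finset.sum_congr rfl
    intro i hi
    have hia : i ≠ a := fun h => ha (h ▸ hi)
    rw [Finset.erase_insert_of_ne hia.symm, Finset.prod_insert]
    intro h1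
    exact ha (Finset.mem_of_mem_erase h1)

/-- the sum over the choices of the next step, in terms of the operators -/
theorem sum_psi_step {T : FTree} (h : Good T) (m : ℕ) (x : Bool) :
    ∑ v ∈ T.active, psi m (T.step x v) = if x then U (psi m T) else D0 (psi m T) := by
  classical
  cases x with
  | true =>
    rw [if_pos rfl]
    have h1 : ∀ v ∈ T.active, psi m (T.step true v) = g (m - T.depth v) * psi m T := by
      intro v hv
      unfold psi
      rw [height_step_true h hv]
      by_cases h2 : T.height ≤ m
      · rw [if_pos h2]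
        by_cases h3 : T.depth v + 1 ≤ m
        · rw [if_pos (max_le h2 h3)]
          have h4 : (T.step true v).active = insert T.size T.active := rfl
          rw [h4, Finset.prod_insert (fun h5 => lt_irrefl _ (h.2.2.2 _ h5)),
            depth_step_new h (h.2.2.2 v hv)]
          congr 1
          · congr 1
            omega
          · apply Finset.prod_congr rfl
            intro u hu
            rw [depth_step_old h v (h.2.2.2 u hu)]
        · rw [if_neg (fun h4 => h3 ((le_max_right _ _).trans h4))]
          have h5 : m - T.depth v = 0 := by omega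
          rw [h5]
          simp [g]
      · rw [if_neg h2, if_neg (fun h4 => h2 ((le_max_left _ _).trans h4)), mul_zero]
    rw [Finset.sum_congr rfl h1]
    unfold psi
    by_cases h2 : T.height ≤ m
    · rw [if_pos h2, deriv_prod U T.active _ (fun v => g (m - T.depth v))]
      intro v hv
      have h3 := depth_le h hv
      have h4 : m + 1 - T.depth v = (m - T.depth v) + 1 := by omega
      rw [h4, U_g]
    · rw [if_neg h2]
      simp
  | false =>
    rw [if_neg (by simp)]
    unfold psi
    by_cases h2 : T.height ≤ m
    · rw [if_pos h2, deriv_prod_one D0 T.active]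
      · apply Finset.sum_congr rfl
        intro v hv
        rw [height_step_false, if_pos h2]
        rfl
      · intro v hv
        have h3 := depth_le h hv
        rw [D0_g, if_neg (by omega)]
    · rw [if_neg h2, map_zero]
      apply Finset.sum_eq_zero
      intro v hv
      rw [height_step_false, if_neg h2]

theorem run_linear (xs : List Bool) (S : ℕ) : ∃ L : Rg →ₗ[ℝ] Rg, ∀ F, run xs S F = L F := by
  induction xs generalizing S with
  | nil => exact ⟨LinearMap.id, fun F => rfl⟩
  | cons x xs ih =>
    cases x with
    | true =>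
      obtain ⟨L, hL⟩ := ih (S + 1)
      refine ⟨L.comp ((S : ℝ)⁻¹ • (U : Rg →ₗ[ℝ] Rg)), fun F => ?_⟩
      rw [run, hL]
      rfl
    | false =>
      obtain ⟨L, hL⟩ := ih (S - 1)
      refine ⟨L.comp ((S : ℝ)⁻¹ • (D0 : Rg →ₗ[ℝ] Rg)), fun F => ?_⟩
      rw [run, hL]
      rfl

theorem ev_g (j : ℕ) : ev (g (j + 1)) = 1 := by
  unfold ev g
  rw [map_sum, Finset.sum_range_succ']
  simp

theorem ev_sum {s : Finset ℕ} (f : ℕ → Rg) : ev (∑ v ∈ s, f v) = ∑ v ∈ s, ev (f v) := by
  unfold ev
  rw [map_sum]

theorem ev_smul (c : ℝ) (p : Rg) : ev (c • p) = c * ev p := by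
  unfold ev
  rw [MvPolynomial.smul_eval]

/-- probability that the height is at most `m` -/
theorem ex_indicator {T : FTree} (h : Good T) (m : ℕ) (xs : List Bool) :
    ex (fun T' => if T'.height ≤ m then 1 else 0) xs T = ev (run xs T.active.card (psi m T)) := by
  induction xs generalizing T with
  | nil =>
    rw [ex, run]
    unfold psi
    by_cases h2 : T.height ≤ m
    · rw [if_pos h2, if_pos h2]
      have h3 : ∀ v ∈ T.active, ev (g (m + 1 - T.depth v)) = 1 := by
        intro v hv
        have h3 := depth_le h hv
        have h4 : m + 1 - T.depth v = (m - T.depth v) + 1 := by omega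
        rw [h4, ev_g]
      have h5 : ev (∏ v ∈ T.active, g (m + 1 - T.depth v))
          = ∏ v ∈ T.active, ev (g (m + 1 - T.depth v)) := by
        unfold ev
        rw [map_prod]
      rw [h5, Finset.prod_congr rfl h3, Finset.prod_const_one]
    · rw [if_neg h2, if_neg h2]
      unfold ev
      rw [map_zero]
  | cons x xs ih =>
    rw [ex]
    cases x with
    | true =>
      obtain ⟨L, hL⟩ := run_linear xs (T.active.card + 1)
      have h1 : ∀ v ∈ T.active, ex (fun T' => if T'.height ≤ m then 1 else 0) xs (T.step true v)
          = ev (L (psi m (T.step true v))) := by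
        intro v hv
        rw [ih (good_step h true hv), card_step_true h hv, hL]
      rw [Finset.sum_congr rfl h1, ← ev_sum, ← map_sum, sum_psi_step h m true, if_pos rfl, run, hL,
        map_smul, ev_smul]
    | false =>
      obtain ⟨L, hL⟩ := run_linear xs (T.active.card - 1)
      have h1 : ∀ v ∈ T.active, ex (fun T' => if T'.height ≤ m then 1 else 0) xs (T.step false v)
          = ev (L (psi m (T.step false v))) := by
        intro v hv
        rw [ih (good_step h false hv), card_step_false hv, hL]
      rw [Finset.sum_congr rfl h1, ← ev_sum, ← map_sum, sum_psi_step h m false, if_neg (by simp),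
        run, hL, map_smul, ev_smul]

end Pool.Agent.R527.FZ
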